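import Pool.Agent.S15888

set_option autoImplicit false

namespace Pool.Agent.Results.MP_52931c_nt.LogFour

/-- `A` nearly contains a `(t,d,w)`-progression. -/
def Near (t d w : ℕ) (A : Finset ℕ) : Prop :=
  ∃ b : ℕ, ∀ i ∈ Finset.Icc 1 (t - 1), ∃ a ∈ A, b + i * d ≤ a ∧ a ≤ b + i * d + w

/-- `(d,w)` is admissible for `n`. -/
def Adm (n d w : ℕ) : Prop := (∃ j : ℕ, d = 2 ^ j) ∧ (w : ℝ) / d < (d : ℝ) / n

/-- The quantity `g_t(n)`. -/
noncomputable def g (t n : ℕ) : ℝ :=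
  sSup {x : ℝ | (∃ m : ℕ, m ≤ n ∧ x = (m : ℝ) / n) ∧ ∃ A : Finset ℕ, A ⊆ Finset.Icc 1 n ∧
    x * n ≤ A.card ∧ ∀ d w : ℕ, Adm n d w → ¬ Near t d w A}

open Pool.Agent.S15888 in
theorem result : ∀ t : ℕ, 3 ≤ t → ∀ N : ℕ, ∃ n : ℕ, N ≤ n ∧ 1 / Real.log n ^ 4 ≤ g t n := by
  intro t ht N
  obtain ⟨r, hr⟩ : ∃ r, r = N + 1 + 2 := ⟨_, rfl⟩
  have hn : N ≤ 2 ^ 2 ^ r := by
    have a1 : r < 2 ^ r := Nat.lt_two_pow_self
    have a2 : 2 ^ r < 2 ^ 2 ^ r := Nat.lt_two_pow_self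
    omega
  refine ⟨2 ^ 2 ^ r, hn, ?_⟩
  have hsub : (B r).image (· + 1) ⊆ Finset.Icc 1 (2 ^ 2 ^ r) := by
    intro x hx
    obtain ⟨a, ha, rfl⟩ := Finset.mem_image.mp hx
    have := (mem_B.mp ha).1
    rw [Finset.mem_Icc]
    omega
  have hpos : (0 : ℝ) < ((2 ^ 2 ^ r : ℕ) : ℝ) := by positivity
  have hav : ∀ d w : ℕ, Adm (2 ^ 2 ^ r) d w → ¬ Near t d w ((B r).image (· + 1)) := by
    rintro d w ⟨⟨j, rfl⟩, hw'⟩ ⟨b, hb⟩
    have hw : w * 2 ^ 2 ^ r < (2 ^ j) ^ 2 := by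
      rw [div_lt_div_iff₀ (by positivity) hpos] at hw'
      have : ((w * 2 ^ 2 ^ r : ℕ) : ℝ) < (((2 ^ j) ^ 2 : ℕ) : ℝ) := by
        rw [Nat.cast_mul, Nat.cast_pow (2 ^ j) 2, sq]
        exact hw'
      exact_mod_cast this
    obtain ⟨x, hx, x1, x2⟩ := hb 1 (by rw [Finset.mem_Icc]; omega)
    obtain ⟨y, hy, y1, y2⟩ := hb 2 (by rw [Finset.mem_Icc]; omega)
    obtain ⟨a, ha, rfl⟩ := Finset.mem_image.mp hx
    obtain ⟨a', ha', rfl⟩ := Finset.mem_image.mp hy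
    have hlt := (mem_B.mp ha').1
    have hj : j < 2 ^ r := by
      by_contra hc
      have : 2 ^ 2 ^ r ≤ 2 ^ j := Nat.pow_le_pow_right (by norm_num) (by omega)
      omega
    exact avoid r j w a a' ha ha' hw hj (by omega) (by omega)
  have hcard : ((B r).image (· + 1)).card = (B r).card :=
    Finset.card_image_of_injective _ (add_left_injective 1)
  have hle : (B r).card ≤ 2 ^ 2 ^ r := by
    have := Finset.card_le_card hsub
    rw [hcard, Nat.card_Icc] at this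
    omega
  have hg : ((B r).card : ℝ) / ((2 ^ 2 ^ r : ℕ) : ℝ) ≤ g t (2 ^ 2 ^ r) := by
    apply le_csSup
    · refine ⟨1, ?_⟩
      rintro x ⟨⟨m, hm, rfl⟩, _⟩
      rw [div_le_one hpos]
      exact_mod_cast hm
    · refine ⟨⟨_, hle, rfl⟩, _, hsub, ?_, hav⟩
      rw [hcard, div_mul_cancel₀ _ hpos.ne']
  refine le_trans ?_ hg
  have hc : ((2 ^ 2 ^ r : ℕ) : ℝ) ≤ ((B r).card : ℝ) * 8 ^ r := by
    have := card_lower (N + 1)
    rw [← hr] at this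
    exact_mod_cast this
  have e1 : Real.log ((2 ^ 2 ^ r : ℕ) : ℝ) = 2 ^ r * Real.log 2 := by
    push_cast
    rw [Real.log_pow]
    push_cast
    ring
  have hl2 := Real.log_two_gt_d9
  have h8 : (8 : ℝ) ≤ 2 ^ r := by
    have : (2 : ℝ) ^ 3 ≤ 2 ^ r := pow_le_pow_right₀ (by norm_num) (by omega)
    linarith
  have h4 : (0.69 : ℝ) ^ 4 ≤ Real.log 2 ^ 4 := pow_le_pow_left₀ (by norm_num) (by linarith) 4
  have han : (8 : ℝ) ^ r ≤ (2 ^ r * Real.log 2) ^ 4 := by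
    have e2 : (8 : ℝ) ^ r = (2 ^ r) ^ 3 := by
      rw [← pow_mul, mul_comm, pow_mul]
      norm_num
    have e3 : ((2 : ℝ) ^ r * Real.log 2) ^ 4 = (2 ^ r) ^ 3 * (2 ^ r * Real.log 2 ^ 4) := by ring
    rw [e2, e3]
    have : (1 : ℝ) ≤ 2 ^ r * Real.log 2 ^ 4 := by nlinarith
    exact le_mul_of_one_le_right (by positivity) this
  rw [e1, div_le_div_iff₀ (by positivity) hpos, one_mul]
  exact hc.trans (mul_le_mul_of_nonneg_left han (by positivity))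

end Pool.Agent.Results.MP_52931c_nt.LogFour
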